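import Pool.Agent.H84.S2.TgB

/-!
# The coefficients of a section along the logarithmic vector fields
-/

set_option autoImplicit false

namespace Pool.Agent.H94.S2

open MvPolynomial SC
open Pool.Agent.H27.LV (ge deg poleOrder canDeg)
open Pool.Agent.H84.SM (cr dt dp)
open Pool.Agent.H84.SL (pd)
open Pool.Agent.H92.SF (Q2)
open Pool.Agent.H3.SF (Itg Bb BB Hm eu grd hes Sfc Crd Cnn Crf Prm nv Vl VQ evc FE E)
open Pool.Agent.H84.SF
open Pool.Agent.H3.S2
open Pool.Agent.H84.S2

theorem pol_idx (d : Fin 2 →₀ ℕ) (n : ℕ) (h : d 0 + d 1 = n) :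
    (Finsupp.single 0 (n - d 1) + Finsupp.single 1 (d 1) : Fin 2 →₀ ℕ) = d := by
  ext j
  rw [Finsupp.add_apply]
  fin_cases j
  · simp
    omega
  · simp

theorem pol_bin {F : Type} [Field F] (n : ℕ) (P : MvPolynomial (Fin 2) F)
    (hP : P.IsHomogeneous n) (x : F) :
    eval ![1, x] P = ∑ i ∈ Finset.range (n + 1),
      x ^ i * coeff (Finsupp.single 0 (n - i) + Finsupp.single 1 i) P := by
  classical
  have h1 : P = ∑ i ∈ Finset.range (n + 1),
      monomial (Finsupp.single 0 (n - i) + Finsupp.single 1 i : Fin 2 →₀ ℕ)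
        (coeff (Finsupp.single 0 (n - i) + Finsupp.single 1 i) P) := by
    ext d
    rw [coeff_sum]
    simp_rw [coeff_monomial]
    by_cases hd : d 0 + d 1 = n
    · rw [Finset.sum_eq_single (d 1)]
      · rw [if_pos (pol_idx d n hd), pol_idx d n hd]
      · intro i _ hi
        rw [if_neg]
        intro h
        apply hi
        have := DFunLike.congr_fun h 1
        simpa using this
      · intro h
        rw [Finset.mem_range] at h
        omega
    · have h2 : coeff d P = 0 := by
        by_contra h3
        apply hd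
        have h4 := hP h3
        rw [← h4, Finsupp.weight_apply, Finsupp.sum_fintype _ _ (by simp), Fin.sum_univ_two]
        simp
      rw [h2, Finset.sum_eq_zero]
      intro i hi
      rw [Finset.mem_range] at hi
      rw [if_neg]
      intro h
      apply hd
      rw [← h]
      simp
      omega
  conv_lhs => rw [h1]
  rw [map_sum]
  refine Finset.sum_congr rfl fun i _ => ?_
  rw [eval_monomial, Finsupp.prod_fintype _ _ (by simp), Fin.prod_univ_two]
  simp
  ring

theorem pf_POL (hVDM : T_VDM) : T_POL := by
  intro k F _ _ _ _ u dd J m G n t V hV hV0 O a b r c hb hf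
  have hh : (V.coeff 0).IsHomogeneous n := by
    have h1 : Pool.Agent.H92.SF.WH n V := hV.1.1
    exact (h1 0).1 (Nat.zero_le _)
  let g : Fin 2 → MvPolynomial (Fin 2) F :=
    ![C (cr u r 1) * X 0 + C (cr u c 1) * X 1, C (cr u r 2) * X 0 + C (cr u c 2) * X 1]
  have hg : ∀ i, (g i).IsHomogeneous 1 := by
    intro i
    have h2 : ∀ (y : F) (j : Fin 2), (C y * X j : MvPolynomial (Fin 2) F).IsHomogeneous 1 := by
      intro y j
      have h3 := (isHomogeneous_C (Fin 2) y).mul (isHomogeneous_X F j)
      rwa [zero_add] at h3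
    fin_cases i
    · exact (h2 _ _).add (h2 _ _)
    · exact (h2 _ _).add (h2 _ _)
  have hP : (aeval g (V.coeff 0)).IsHomogeneous n := by
    have h3 := hh.aeval g hg
    rwa [one_mul] at h3
  have hev : ∀ μ : k, Vc u (fun l => r l + μ • c l) V =
      ∑ i ∈ Finset.range (n + 1), μ ^ i • Vi u r c V n i := by
    intro μ
    have h4 := pol_bin n _ hP (algebraMap k F μ)
    have h5 : eval ![1, algebraMap k F μ] (aeval g (V.coeff 0)) =
        Vc u (fun l => r l + μ • c l) V := by
      unfold Vc
      have h6 : ∀ Q : MvPolynomial (Fin 2) F, eval ![1, algebraMap k F μ] (aeval g Q) =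
          eval (fun i => eval ![1, algebraMap k F μ] (g i)) Q := by
        intro Q
        induction Q using MvPolynomial.induction_on with
        | C y => simp
        | add p q hp hq => rw [map_add, map_add, hp, hq, map_add]
        | mul_X p i hp => rw [map_mul, map_mul, hp, map_mul, aeval_X, eval_X]
      rw [h6]
      have h7 : (fun i => eval ![1, algebraMap k F μ] (g i)) =
          ![cr u (fun l => r l + μ • c l) 1, cr u (fun l => r l + μ • c l) 2] := by
        funext i
        fin_cases i
        · simp [g, cr, Algebra.smul_def]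
          ring
        · simp [g, cr, Algebra.smul_def]
          ring
      rw [h7]
    rw [← h5, h4]
    refine Finset.sum_congr rfl fun i _ => ?_
    rw [Algebra.smul_def, map_pow]
    rfl
  let Z : Submodule k F :=
    { carrier := {y | ∃ f : O, (f : F) * b = a * y}
      add_mem' := by
        rintro y z ⟨f, hf⟩ ⟨f', hf'⟩
        refine ⟨f + f', ?_⟩
        rw [Subalgebra.coe_add, add_mul, hf, hf', mul_add]
      zero_mem' := ⟨0, by simp⟩
      smul_mem' := by
        rintro s y ⟨f, hf⟩
        refine ⟨s • f, ?_⟩
        rw [Subalgebra.coe_smul, smul_mul_assoc, hf, mul_smul_comm] }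
  intro i hi
  have h8 := hVDM k F Z n (fun i => Vi u r c V n i) (fun μ => ?_) i hi
  · exact h8
  · rw [← hev]
    exact hf μ

end Pool.Agent.H94.S2
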